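import Mathlib
import Pool.Agent.Lib.MP_b40da5_nt.Defs
import Pool.Agent.Lib.MP_b40da5_nt_h96.Main

/-!
# Three or five classes for all but `O(N^(1/4))` of the `k ≤ N`

For all but `C N^(1/4)` of the integers `2 ≤ k ≤ N` the number of classes of integer solutions of
`x² - (k²+1) y² = k²` is five if `k` lies in one of the four families
`2 t²`, `4 t³ - t`, `(2 t + 1) (2 t² + 3 t + 2)`, `(2 t + 1) (2 t² + t + 1)`, and three otherwise.
-/

set_option autoImplicit false

namespace Pool.Agent.Results.MP_b40da5_nt.AlmostAllK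

open Pool.Agent.Lib.MP_b40da5_nt (numClasses)

/-- `k` is a value of one of the polynomials `2 t²`, `4 t³ - t`, `(2 t + 1) (2 t² + 3 t + 2)`,
`(2 t + 1) (2 t² + t + 1)` at a natural number `t`. -/
def MainFamily (k : ℕ) : Prop :=
  ∃ t : ℕ, k = 2 * t ^ 2 ∨ k = 4 * t ^ 3 - t ∨ k = (2 * t + 1) * (2 * t ^ 2 + 3 * t + 2) ∨
    k = (2 * t + 1) * (2 * t ^ 2 + t + 1)

open Classical in
/-- **Main result.** Outside a set of at most `C N^(1/4)` of the integers `2 ≤ k ≤ N` the number of
classes is five for `k` in the four main families and three for all other `k`. -/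
theorem result : ∃ C : ℝ, ∀ N : ℕ, 1 ≤ N →
    (((Finset.Icc 2 N).filter fun k => numClasses k ≠ if MainFamily k then 5 else 3).card : ℝ)
      ≤ C * (N : ℝ) ^ (1 / 4 : ℝ) :=
  Pool.Agent.Lib.MP_b40da5_nt_h96.main

end Pool.Agent.Results.MP_b40da5_nt.AlmostAllK
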