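import Mathlib
import Pool.Agent.Lib.MP_b40da5_nt.Defs
import Pool.Agent.Lib.MP_b40da5_nt.Classes

set_option autoImplicit false

open Pool.Agent.Lib.MP_b40da5_nt

/-- For every `k ≥ 2` the number of solution classes of `x² − (k²+1) y² = k²` is `2 g + 1`
with `1 ≤ g` and `2 g ≤ 2 ^ ω`, where `ω` is the number of odd primes dividing `k² + 1`; in
particular there are exactly three or exactly five classes when `ω ≤ 2`. -/
theorem Pool.Agent.Results.MP_b40da5_nt.FewPrimes.result :
    ∀ k : ℕ, 2 ≤ k →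
      (∃ g : ℕ, 1 ≤ g ∧ 2 * g ≤ 2 ^ (oddPrimes k).card ∧ numClasses k = 2 * g + 1) ∧
      ((oddPrimes k).card ≤ 2 → numClasses k = 3 ∨ numClasses k = 5) :=
  fun k hk => main k hk
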