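import Mathlib
import Pool.Agent.Lib.MP_b40da5_nt.Defs
import Pool.Agent.Lib.MP_b40da5_nt_h5.Count

set_option autoImplicit false

open Pool.Agent.Lib.MP_b40da5_nt

/-- Let `k = p ^ a * s ≥ 2` with a prime `p`. If `2 s⁸ < k`, the equation
`x² − (k²+1) y² = k²` has exactly three or exactly five classes of solutions. If `32 s⁸ < k` and
`2 s¹² < k`, it has exactly five classes when `k = 2 t²` for some `t`, and exactly three classes
otherwise. -/
theorem Pool.Agent.Results.MP_b40da5_nt.LargePrimePower.result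
    (k p a s : ℕ) (hk2 : 2 ≤ k) (hp : p.Prime) (hk : k = p ^ a * s) :
    (2 * s ^ 8 < k → numClasses k = 3 ∨ numClasses k = 5) ∧
    (32 * s ^ 8 < k → 2 * s ^ 12 < k →
      ((∃ t, k = 2 * t ^ 2) → numClasses k = 5) ∧
      ((¬ ∃ t, k = 2 * t ^ 2) → numClasses k = 3)) :=
  Pool.Agent.Lib.MP_b40da5_nt_h5.main k p a s hk2 hp hk
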