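import Mathlib
import Pool.Agent.Lib.MP_b40da5_nt.Defs
import Pool.Agent.Lib.MP_b40da5_nt_h5.TwoMain

set_option autoImplicit false

open Pool.Agent.Lib.MP_b40da5_nt

/-- Let `k ≥ 2`, `m = k` if `k` is odd and `m = k / 2` if `k` is even, and let `ω` be the number of
primes dividing `m`. The number of classes of solutions of `x² − (k²+1) y² = k²` is finite, at
least `3`, at most `2 ^ (ω + 1) + 1`, and at most `2 ^ (ω + 1) − 1` if `k` is not of the form `2 t²`. If `k` is not
of the form `2 t²` and `ω ≤ 2`, there are exactly three or exactly five classes. -/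
theorem Pool.Agent.Results.MP_b40da5_nt.TwoPrimesOfK.result
    (k m : ℕ) (hk : 2 ≤ k) (hm : (Odd k ∧ m = k) ∨ (Even k ∧ m = k / 2)) :
    3 ≤ numClasses k ∧ numClasses k ≤ 2 ^ (m.primeFactors.card + 1) + 1 ∧
    ((¬ ∃ t, k = 2 * t ^ 2) → numClasses k + 1 ≤ 2 ^ (m.primeFactors.card + 1)) ∧
    ((¬ ∃ t, k = 2 * t ^ 2) → m.primeFactors.card ≤ 2 →
      numClasses k = 3 ∨ numClasses k = 5) :=
  Pool.Agent.Lib.MP_b40da5_nt_h5.two_main k m hk hm
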